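import Mathlib

set_option autoImplicit false

namespace Pool.Agent.H.MP_e1d64d_co

open Relation SimpleGraph Finset
open scoped Classical

variable {V : Type} (F : SimpleGraph V)

def R (W : Finset V) (a b : V) : Prop := F.Adj a b ∧ a ∈ W ∧ b ∈ W

theorem suffix {a x : V} (p : F.Walk a x) (hp : p.IsPath) (N : Finset V) (hN : N.Nonempty)
    (hs : ∀ v ∈ N, v ∈ p.support) : ∃ v ∈ N, ∃ r : F.Walk v x, r.IsPath ∧
      (∀ u ∈ r.support, u ∈ p.support) ∧ ∀ u ∈ N, u ∈ r.support := by
  induction p with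
  | @nil a =>
    obtain ⟨v, hv⟩ := hN
    have : v = a := by simpa using hs v hv
    subst this
    exact ⟨v, hv, .nil, hp, fun _ h => h, hs⟩
  | @cons a b c h p ih =>
    by_cases ha : a ∈ N
    · exact ⟨a, ha, _, hp, fun _ h => h, hs⟩
    · obtain ⟨v, hv, r, h1, h2, h3⟩ := ih hp.of_cons (fun v hv => by
        have := hs v hv
        rw [Walk.support_cons, List.mem_cons] at this
        exact this.resolve_left fun e => ha (e ▸ hv))
      exact ⟨v, hv, r, h1, fun u hu => by simp [h2 u hu], h3⟩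

theorem walk_of (W : Finset V) {a b : V} (h : ReflTransGen (R F W) a b) (hb : b ∈ W) :
    ∃ q : F.Walk a b, q.IsPath ∧ ∀ u ∈ q.support, u ∈ W := by
  have : ∃ q : F.Walk a b, ∀ u ∈ q.support, u ∈ W := by
    induction h using ReflTransGen.head_induction_on with
    | refl => exact ⟨.nil, by simpa using hb⟩
    | head h _ ih =>
      obtain ⟨q, hq⟩ := ih
      refine ⟨.cons h.1 q, fun u hu => ?_⟩
      rw [Walk.support_cons, List.mem_cons] at hu
      rcases hu with rfl | hu
      exacts [h.2.1, hq u hu]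
  obtain ⟨q, hq⟩ := this
  exact ⟨q.bypass, q.bypass_isPath, fun u hu => hq u (q.support_bypass_subset_support hu)⟩

theorem split (W : Finset V) (y : V) (hy : y ∈ W) (w : V) (h : ReflTransGen (R F W) y w) :
    w = y ∨ ∃ z ∈ (W.filter fun w => ReflTransGen (R F W) y w).erase y, F.Adj y z ∧
      ReflTransGen (R F ((W.filter fun w => ReflTransGen (R F W) y w).erase y)) z w := by
  induction h with
  | refl => exact Or.inl rfl
  | @tail b c h1 h2 ih =>
    by_cases hc : c = y
    · exact Or.inl hc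
    have c1 : c ∈ (W.filter fun w => ReflTransGen (R F W) y w).erase y := by
      simp [hc, h2.2.2, h1.tail h2]
    by_cases hb : b = y
    · exact Or.inr ⟨c, c1, hb ▸ h2.1, .refl⟩
    obtain ⟨z, h3, h4, h5⟩ := ih.resolve_left hb
    exact Or.inr ⟨z, h3, h4, h5.tail ⟨h2.1, by simp [hb, h2.2.1, h1], c1⟩⟩

theorem rest (W : Finset V) (y a w : V) (h : ReflTransGen (R F W) a w)
    (hw : ¬ ReflTransGen (R F W) y w) : ¬ ReflTransGen (R F W) y a ∧
      ReflTransGen (R F (W.filter fun w => ¬ ReflTransGen (R F W) y w)) a w := by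
  refine ⟨fun k => hw (k.trans h), ?_⟩
  induction h with
  | refl => exact .refl
  | @tail b c h1 h2 ih =>
    have : ¬ ReflTransGen (R F W) y b := fun k => hw (k.tail h2)
    exact (ih this).tail ⟨h2.1, by simp [h2.2.1, this], by simp [h2.2.2, hw]⟩

noncomputable def nb (Y S : Finset V) : Finset V := Y.filter fun v => v ∉ S ∧ ∃ s ∈ S, F.Adj s v

theorem grow (Y : Finset V) (m : ℕ) (hm : 2 ≤ m)
    (he : ∀ S ⊆ Y, m ≤ S.card → S.card < 2 * m → m ≤ (nb F Y S).card) (k : ℕ) :
    ∀ (W : Finset V) (a x : V) (p : F.Walk a x), W.card = k → m ≤ k → p.IsPath → W ⊆ Y →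
      (∀ v ∈ p.support, v ∈ Y ∧ v ∉ W) → (∀ w ∈ W, ∀ v ∈ Y, F.Adj w v → v ∈ W ∨ v ∈ p.support) →
      (∀ w ∈ W, ∃ y ∈ W, F.Adj x y ∧ ReflTransGen (R F W) y w) →
      ∃ u, ∃ c : F.Walk u u, c.IsCycle ∧ m ≤ c.support.toFinset.card ∧ ∀ v ∈ c.support, v ∈ Y := by
  induction k using Nat.strong_induction_on with
  | _ k ih =>
    intro W a x p hk hmk hp hW h1 h2 h3
    by_cases hl : k < 2 * m
    · have hN := he W hW (by omega) (by omega)
      obtain ⟨v, hv, r, r1, r2, r3⟩ := suffix F p hp (nb F Y W) (card_pos.1 (by omega))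
        (fun v hv => by
          simp only [nb, mem_filter] at hv
          obtain ⟨b1, b2, s, b3, b4⟩ := hv
          exact (h2 s b3 v b1 b4).resolve_left b2)
      simp only [nb, mem_filter] at hv
      obtain ⟨b1, b2, w, b3, b4⟩ := hv
      obtain ⟨y, y1, y2, y3⟩ := h3 w b3
      obtain ⟨q, q1, q2⟩ := walk_of F W y3 b3
      have hc : m ≤ r.support.toFinset.card :=
        hN.trans (card_le_card fun u hu => List.mem_toFinset.2 (r3 u hu))
      have hpath : (r.append (.cons y2 q)).IsPath := by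
        rw [Walk.isPath_def, Walk.support_append, List.nodup_append]
        refine ⟨r1.support_nodup, by simpa using q1.support_nodup, fun u hu u' hu' e => ?_⟩
        subst e
        exact (h1 u (r2 u hu)).2 (q2 u (by simpa using hu'))
      refine ⟨w, .cons b4 (r.append (.cons y2 q)), (Walk.cons_isCycle_iff _ _).2 ⟨hpath, fun k => ?_⟩,
        hc.trans (card_le_card fun u hu => ?_), fun u hu => ?_⟩
      · rw [Sym2.eq_swap] at k
        have := hpath.length_eq_one_of_mem_edges k
        have e1 := List.toFinset_card_le r.support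
        rw [Walk.length_support] at e1
        rw [Walk.length_append, Walk.length_cons] at this
        omega
      · rw [List.mem_toFinset] at hu ⊢
        simp [hu]
      · simp only [Walk.support_cons, List.mem_cons, Walk.support_append, List.mem_append,
          List.tail_cons] at hu
        rcases hu with rfl | hu | hu
        exacts [hW b3, (h1 u (r2 u hu)).1, hW (q2 u hu)]
    obtain ⟨w, hw⟩ : W.Nonempty := card_pos.1 (by omega)
    obtain ⟨y, y1, y2, -⟩ := h3 w hw
    have hy : y ∈ W.filter fun w => ReflTransGen (R F W) y w := by simp [y1, ReflTransGen.refl]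
    have e1 := card_filter_add_card_filter_not (s := W) fun w => ReflTransGen (R F W) y w
    have e2 := card_erase_add_one hy
    by_cases hb : m ≤ (W.filter fun w => ¬ ReflTransGen (R F W) y w).card
    · refine ih _ (by omega) _ a x p rfl hb hp ((filter_subset _ _).trans hW)
        (fun v hv => ⟨(h1 v hv).1, fun k => (h1 v hv).2 (mem_filter.1 k).1⟩) ?_ ?_
      · intro w hw v hv h
        rw [mem_filter] at hw
        refine (h2 w hw.1 v hv h).imp_left fun k => mem_filter.2 ⟨k, fun j => hw.2 ?_⟩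
        exact j.tail ⟨h.symm, k, hw.1⟩
      · intro w hw
        rw [mem_filter] at hw
        obtain ⟨z, z1, z2, z3⟩ := h3 w hw.1
        obtain ⟨z4, z5⟩ := rest F W y z w z3 hw.2
        exact ⟨z, mem_filter.2 ⟨z1, z4⟩, z2, z5⟩
    · refine ih _ (by omega) ((W.filter fun w => ReflTransGen (R F W) y w).erase y) a y
        (p.concat y2) rfl (by omega) (hp.concat (fun k => (h1 y k).2 y1) y2)
        ((erase_subset _ _).trans ((filter_subset _ _).trans hW)) ?_ ?_ ?_
      · intro v hv
        rw [Walk.support_concat, List.mem_append, List.mem_singleton] at hv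
        rcases hv with hv | rfl
        · exact ⟨(h1 v hv).1, fun k => (h1 v hv).2 (mem_filter.1 (mem_of_mem_erase k)).1⟩
        · exact ⟨hW y1, notMem_erase _ _⟩
      · intro w hw v hv h
        rw [mem_erase, mem_filter] at hw
        rw [Walk.support_concat, List.mem_append, List.mem_singleton, mem_erase, mem_filter]
        rcases h2 w hw.2.1 v hv h with k | k
        · by_cases e : v = y
          · exact Or.inr (Or.inr e)
          · exact Or.inl ⟨e, k, hw.2.2.tail ⟨h, hw.2.1, k⟩⟩
        · exact Or.inr (Or.inl k)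
      · intro w hw
        rw [mem_erase, mem_filter] at hw
        exact (split F W y y1 w hw.2.2).resolve_left hw.1

theorem long (Y : Finset V) (hY : Y.Nonempty) (m : ℕ) (hm : 2 ≤ m)
    (h0 : ∀ S ⊆ Y, S.Nonempty → S.card ≤ m → (nb F Y S).Nonempty)
    (he : ∀ S ⊆ Y, m ≤ S.card → S.card < 2 * m → m ≤ (nb F Y S).card) :
    ∃ u, ∃ c : F.Walk u u, c.IsCycle ∧ m ≤ c.support.toFinset.card ∧ ∀ v ∈ c.support, v ∈ Y := by
  obtain ⟨y, y1⟩ := hY
  have hy : y ∈ Y.filter fun w => ReflTransGen (R F Y) y w := by simp [y1, ReflTransGen.refl]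
  have e2 := card_erase_add_one hy
  refine grow F Y m hm he _ ((Y.filter fun w => ReflTransGen (R F Y) y w).erase y) y y .nil rfl ?_
    Walk.IsPath.nil ((erase_subset _ _).trans (filter_subset _ _)) (by simp [y1]) ?_ ?_
  · by_contra k
    obtain ⟨v, hv⟩ := h0 _ (filter_subset _ _) ⟨y, hy⟩ (by omega)
    simp only [nb, mem_filter] at hv
    obtain ⟨b1, b2, s, b3, b4⟩ := hv
    exact b2 ⟨b1, b3.2.tail ⟨b4, b3.1, b1⟩⟩
  · intro w hw v hv h
    rw [mem_erase, mem_filter] at hw
    by_cases e : v = y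
    · simp [e]
    · exact Or.inl (mem_erase.2 ⟨e, mem_filter.2 ⟨hv, hw.2.2.tail ⟨h, hw.2.1, hv⟩⟩⟩)
  · intro w hw
    rw [mem_erase, mem_filter] at hw
    exact (split F Y y y1 w hw.2.2).resolve_left hw.1

noncomputable def D (S : Finset V) : ℕ := ((S ×ˢ S).filter fun p => F.Adj p.1 p.2).card

theorem dense (G : SimpleGraph V) (hF : F ≤ G) (d : ℝ) (m : ℕ) (hm : 2 ≤ m) (hd : 0 ≤ d)
    (hG : ∀ S : Finset V, S.Nonempty → S.card < 3 * m → 5 * (D G S : ℝ) < d * S.card)
    (K : Finset V) (hK : 2 * d * K.card < 5 * (D F K : ℝ)) :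
    ∃ u, ∃ c : F.Walk u u, c.IsCycle ∧ m ≤ c.support.toFinset.card ∧ ∀ v ∈ c.support, v ∈ K := by
  obtain ⟨Y, hY, hmin⟩ := exists_min_image
    (K.powerset.filter fun Y => 2 * d * Y.card < 5 * (D F Y : ℝ)) card ⟨K, by simp [hK]⟩
  simp only [mem_filter, mem_powerset] at hY hmin
  have key : ∀ S ⊆ Y, S.Nonempty → 3 * m ≤ S.card + (nb F Y S).card ∨ S.card < (nb F Y S).card := by
    intro S hS hne
    by_contra k
    have c1 := card_sdiff_add_card_eq_card hS
    have c2 := hne.card_pos
    have c3 : ¬ 2 * d * (Y \ S).card < 5 * (D F (Y \ S) : ℝ) := fun j => by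
      have := hmin _ ⟨sdiff_subset.trans hY.1, j⟩
      omega
    have c4 := card_union_le S (nb F Y S)
    have c5 := hG (S ∪ nb F Y S) (hne.mono subset_union_left) (by omega)
    have c6 : D F Y ≤ D F (Y \ S) + D G (S ∪ nb F Y S) := by
      refine le_trans (card_le_card ?_) (card_union_le _ _)
      rintro ⟨a, b⟩ h
      simp only [mem_filter, mem_product, mem_union, mem_sdiff, nb] at h ⊢
      have := hF h.2
      have := h.2.symm
      grind
    have c7 : ((S ∪ nb F Y S).card : ℝ) ≤ 2 * S.card := by exact_mod_cast (by omega)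
    have c8 : ((Y \ S).card : ℝ) + S.card = Y.card := by exact_mod_cast c1
    have c9 : (D F Y : ℝ) ≤ D F (Y \ S) + D G (S ∪ nb F Y S) := by exact_mod_cast c6
    have := hY.2
    rw [← c8] at this
    nlinarith [mul_le_mul_of_nonneg_left c7 hd]
  have hne : Y.Nonempty := by
    rw [nonempty_iff_ne_empty]
    rintro rfl
    simp [D] at hY
  obtain ⟨u, c, h1, h2, h3⟩ := long F Y hne m hm (fun S hS h k => card_pos.1 (by
    have := key S hS h; omega)) (fun S hS h k => by
    have := key S hS (card_pos.1 (by omega)); omega)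
  exact ⟨u, c, h1, h2, fun v hv => hY.1 (h3 v hv)⟩

end Pool.Agent.H.MP_e1d64d_co
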