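import Mathlib
import Pool.Agent.H.MP_e1d64d_co.A

set_option autoImplicit false

namespace Pool.Agent.H.MP_e1d64d_co

open SimpleGraph Finset
open scoped Classical

variable {V : Type} [Fintype V]

noncomputable def Hs (G : SimpleGraph V) (m : ℕ) : Finset (Finset V) :=
  univ.filter fun U => m ≤ U.card ∧ ∃ u : V, ∃ p : G.Walk u u, p.IsCycle ∧ p.support.toFinset = U

theorem one (G : SimpleGraph V) (d : ℝ) (m : ℕ) (hm : 2 ≤ m) (hd : 0 ≤ d)
    (hG : ∀ S : Finset V, S.Nonempty → S.card < 3 * m → 5 * (D G S : ℝ) < d * S.card)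
    (K : Finset V) : 5 * (D G K : ℝ) ≤ 2 * d * K.card +
      5 * ∑ U ∈ Hs G m, if U ⊆ K then (U.card : ℝ) ^ 2 else 0 := by
  let F : SimpleGraph V :=
    { Adj := fun u v => G.Adj u v ∧ ∀ U ∈ Hs G m, U ⊆ K → ¬ (u ∈ U ∧ v ∈ U)
      symm := ⟨fun u v h => ⟨h.1.symm, fun U a b c => h.2 U a b c.symm⟩⟩
      loopless := ⟨fun u h => h.1.ne rfl⟩ }
  have hF : F ≤ G := fun _ _ h => h.1
  have h1 : 5 * (D F K : ℝ) ≤ 2 * d * K.card := by
    by_contra k
    obtain ⟨u, c, c1, c2, c3⟩ := dense F G hF d m hm hd hG K (not_le.1 k)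
    have hU : c.support.toFinset ∈ Hs G m :=
      mem_filter.2 ⟨mem_univ _, c2, u, c.mapLe hF, c1.mapLe hF, by simp⟩
    cases c with
    | nil => exact c1.ne_nil rfl
    | cons h q => exact h.2 _ hU (fun v hv => c3 v (List.mem_toFinset.1 hv)) (by simp)
  have h2 : D G K ≤ D F K + ∑ U ∈ (Hs G m).filter (· ⊆ K), U.card ^ 2 := by
    have : (((Hs G m).filter (· ⊆ K)).biUnion fun U => U ×ˢ U).card ≤
        ∑ U ∈ (Hs G m).filter (· ⊆ K), U.card ^ 2 :=
      card_biUnion_le.trans (by simp [sq])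
    refine le_trans ((card_le_card ?_).trans (card_union_le _ _)) (Nat.add_le_add_left this _)
    rintro ⟨a, b⟩ h
    simp only [mem_filter, mem_product, mem_union, mem_biUnion, F] at h ⊢
    grind
  have h3 : (D G K : ℝ) ≤ D F K + ∑ U ∈ (Hs G m).filter (· ⊆ K), (U.card : ℝ) ^ 2 := by
    exact_mod_cast h2
  rw [sum_filter] at h3
  linarith

theorem sup (A : Finset V) (x : ℝ) :
    ∑ K : Finset V, (if A ⊆ K then x else 0) = x * 2 ^ Fintype.card V / 2 ^ A.card := by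
  rw [← sum_filter, sum_const, show univ.filter (A ⊆ ·) = Icc A univ by ext; simp,
    card_Icc_finset (subset_univ _), card_univ, eq_div_iff (by positivity), nsmul_eq_mul]
  push_cast
  rw [mul_right_comm, ← pow_add, Nat.sub_add_cancel (card_le_univ A), mul_comm]

theorem total (G : SimpleGraph V) (d : ℝ) (m : ℕ) (hm : 2 ≤ m) (hd : 0 ≤ d)
    (hG : ∀ S : Finset V, S.Nonempty → S.card < 3 * m → 5 * (D G S : ℝ) < d * S.card) :
    5 * (D G univ : ℝ) / 4 ≤ d * Fintype.card V +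
      5 * ∑ U ∈ Hs G m, (U.card : ℝ) ^ 2 / 2 ^ U.card := by
  have h := sum_le_sum fun K (_ : K ∈ (univ : Finset (Finset V))) => one G d m hm hd hG K
  rw [sum_add_distrib, ← mul_sum, ← mul_sum, ← mul_sum, sum_comm] at h
  have e1 : ∑ K : Finset V, (K.card : ℝ) = Fintype.card V * (2 ^ Fintype.card V / 2) := by
    have : ∀ K : Finset V, (K.card : ℝ) = ∑ v : V, if {v} ⊆ K then 1 else 0 := by simp
    simp only [this]
    rw [sum_comm]
    simp only [sup]
    simp
  have e2 : ∑ K : Finset V, (D G K : ℝ) = D G univ * (2 ^ Fintype.card V / 4) := by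
    have : ∀ K : Finset V, (D G K : ℝ) = ∑ p ∈ (univ ×ˢ univ).filter fun p : V × V => G.Adj p.1 p.2,
        if {p.1, p.2} ⊆ K then 1 else 0 := by
      intro K
      rw [← sum_filter, sum_const, D, nsmul_eq_mul, mul_one]
      congr 2
      ext p
      simp [insert_subset_iff, and_comm]
    simp only [this]
    rw [sum_comm]
    simp only [sup]
    rw [sum_congr rfl (g := fun _ => (2 : ℝ) ^ Fintype.card V / 4) fun p hp => by
      rw [card_pair (mem_filter.1 hp).2.ne]; norm_num]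
    simp
  simp only [sup] at h
  rw [e1, e2, sum_congr rfl (g := fun U => U.card ^ 2 / 2 ^ U.card * (2 : ℝ) ^ Fintype.card V)
    (fun U _ => by ring), ← sum_mul] at h
  have p : (0 : ℝ) < 2 ^ Fintype.card V := by positivity
  refine le_of_mul_le_mul_right ?_ p
  linarith

theorem num (u : ℕ) (t : ℝ) (h : t ≤ 4 * u) : (u : ℝ) ^ 2 / 2 ^ u ≤ 64 / 2 ^ (1 / 8 * t) := by
  have l := Real.log_two_gt_d9
  have a1 : (u : ℝ) / 8 ≤ 2 ^ ((u : ℝ) / 4) := by
    rw [Real.rpow_def_of_pos two_pos]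
    have := Real.add_one_le_exp (Real.log 2 * (u / 4))
    have : (0 : ℝ) ≤ u := by positivity
    nlinarith
  have a2 : (2 : ℝ) ^ (1 / 8 * t) ≤ 2 ^ ((u : ℝ) / 4) * 2 ^ ((u : ℝ) / 4) := by
    rw [← Real.rpow_add two_pos]
    exact Real.rpow_le_rpow_of_exponent_le one_le_two (by linarith)
  have a3 : (2 : ℝ) ^ u = (2 ^ ((u : ℝ) / 4)) ^ 4 := by
    rw [← Real.rpow_natCast, ← Real.rpow_natCast, ← Real.rpow_mul zero_le_two]
    congr 1; push_cast; ring
  rw [div_le_div_iff₀ (by positivity) (by positivity), a3]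
  generalize (2 : ℝ) ^ ((u : ℝ) / 4) = y at *
  have u0 : (0 : ℝ) ≤ u := by positivity
  have a4 : (u : ℝ) ^ 2 ≤ 64 * (y * y) := by nlinarith
  calc _ ≤ 64 * (y * y) * (y * y) := mul_le_mul a4 a2 (by positivity) (by nlinarith)
    _ = _ := by ring

theorem D_eq (G : SimpleGraph V) (S : Finset V) :
    2 * ({e ∈ G.edgeSet | ∀ v ∈ e, v ∈ S}.ncard : ℝ) = D G S := by
  let F : SimpleGraph V :=
    { Adj := fun u v => G.Adj u v ∧ u ∈ S ∧ v ∈ S
      symm := ⟨fun u v h => ⟨h.1.symm, h.2.symm⟩⟩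
      loopless := ⟨fun u h => h.1.ne rfl⟩ }
  have e : {e ∈ G.edgeSet | ∀ v ∈ e, v ∈ S} = F.edgeFinset := by
    ext e
    induction e using Sym2.ind with
    | _ a b => simp [F]
  rw [e, Set.ncard_coe_finset]
  norm_cast
  rw [F.two_mul_card_edgeFinset, D]
  congr 1
  ext ⟨a, b⟩
  simp [F, and_comm]

end Pool.Agent.H.MP_e1d64d_co
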